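import Mathlib

set_option autoImplicit false

/-! Inhomogeneous approximation on the circle with a rational shift: scaling of the radii,
dilations, and a zero-one law. -/

namespace Pool.Agent.H685IDS

open MeasureTheory Filter Set Metric
open scoped Topology

/-- the points of the circle with `‖q y - γ‖ ≤ ψ q` for infinitely many `q` -/
def L (γ : UnitAddCircle) (ψ : ℕ → ℝ) : Set UnitAddCircle :=
  {y | ∃ᶠ q : ℕ in atTop, 0 < q ∧ ‖q • y - γ‖ ≤ ψ q}

/-- the shifted fractions with denominator `q` -/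
def S (γ : ℝ) (q : ℕ) : Set UnitAddCircle :=
  range fun A : Fin q => (((((A : ℕ) : ℝ) + γ) / q : ℝ) : UnitAddCircle)

theorem S_compact (γ : ℝ) (q : ℕ) : IsCompact (S γ q) := (Set.finite_range _).isCompact

theorem smul_mem_S {γ : ℝ} {q : ℕ} (hq : 0 < q) {z : UnitAddCircle} (hz : z ∈ S γ q) :
    q • z = (γ : UnitAddCircle) := by
  obtain ⟨A, rfl⟩ := hz
  have hq' : (q : ℝ) ≠ 0 := by positivity
  rw [← AddCircle.coe_nsmul]
  have : q • ((((A : ℕ) : ℝ) + γ) / q) = γ + ((A : ℕ) : ℝ) := by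
    rw [nsmul_eq_mul]; field_simp; ring
  rw [this, AddCircle.coe_add]
  have h1 : (((A : ℕ) : ℝ) : UnitAddCircle) = 0 := by
    rw [AddCircle.coe_eq_zero_iff]
    exact ⟨(A : ℕ), by simp⟩
  rw [h1, add_zero]

theorem mem_ct {γ : ℝ} {q : ℕ} (hq : 0 < q) {δ : ℝ} (hδ : 0 ≤ δ) (y : UnitAddCircle) :
    y ∈ cthickening (δ / q) (S γ q) ↔ ‖q • y - (γ : UnitAddCircle)‖ ≤ δ := by
  have hq' : (0 : ℝ) < q := by exact_mod_cast hq
  rw [(S_compact γ q).cthickening_eq_biUnion_closedBall (div_nonneg hδ hq'.le)]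
  simp only [mem_iUnion, mem_closedBall, exists_prop]
  constructor
  · rintro ⟨z, hz, hd⟩
    rw [← smul_mem_S hq hz, ← nsmul_sub]
    calc ‖q • (y - z)‖ ≤ q * ‖y - z‖ := norm_nsmul_le
      _ ≤ q * (δ / q) := by
        rw [dist_eq_norm] at hd
        exact mul_le_mul_of_nonneg_left hd hq'.le
      _ = δ := by field_simp
  · intro h
    obtain ⟨x, rfl⟩ := QuotientAddGroup.mk_surjective y
    change ‖q • ((x : ℝ) : UnitAddCircle) - (γ : UnitAddCircle)‖ ≤ δ at h
    rw [← AddCircle.coe_nsmul, ← AddCircle.coe_sub, UnitAddCircle.norm_eq, nsmul_eq_mul] at h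
    set A : ℤ := round ((q : ℝ) * x - γ) with hA
    have hq0 : (q : ℤ) ≠ 0 := by exact_mod_cast hq.ne'
    have hmod0 : 0 ≤ A % q := Int.emod_nonneg _ hq0
    have hmod1 : A % q < q := Int.emod_lt_of_pos _ (by exact_mod_cast hq)
    have hdec : (q : ℤ) * (A / q) + A % q = A := Int.mul_ediv_add_emod A q
    have hlt : (A % q).toNat < q := by omega
    refine ⟨_, ⟨⟨(A % q).toNat, hlt⟩, rfl⟩, ?_⟩
    have hcast : (((A % q).toNat : ℕ) : ℝ) = ((A % q : ℤ) : ℝ) := by
      have : (((A % q).toNat : ℕ) : ℤ) = A % q := Int.toNat_of_nonneg hmod0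
      exact_mod_cast congrArg (fun t : ℤ => (t : ℝ)) this
    rw [dist_eq_norm]
    change ‖((x : ℝ) : UnitAddCircle) - _‖ ≤ _
    rw [← AddCircle.coe_sub]
    have hshift : ((x - ((((⟨(A % q).toNat, hlt⟩ : Fin q) : ℕ) : ℝ) + γ) / q : ℝ) : UnitAddCircle) =
        (((x - ((A : ℝ) + γ) / q : ℝ)) : UnitAddCircle) := by
      have h2 : (x - ((((⟨(A % q).toNat, hlt⟩ : Fin q) : ℕ) : ℝ) + γ) / q : ℝ) =
          (x - ((A : ℝ) + γ) / q) + ((A / q : ℤ) : ℝ) := by
        have h3 : (A : ℝ) = (q : ℝ) * ((A / q : ℤ) : ℝ) + ((A % q : ℤ) : ℝ) := by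
          exact_mod_cast congrArg (fun t : ℤ => (t : ℝ)) hdec.symm
        simp only [hcast]
        rw [h3]
        field_simp
        ring
      rw [h2, AddCircle.coe_add]
      have h1 : (((A / q : ℤ) : ℝ) : UnitAddCircle) = 0 := by
        rw [AddCircle.coe_eq_zero_iff]
        exact ⟨A / q, by simp⟩
      rw [h1, add_zero]
    rw [hshift]
    have h4 : ‖((x - ((A : ℝ) + γ) / q : ℝ) : UnitAddCircle)‖ ≤ |x - ((A : ℝ) + γ) / q| := by
      rw [UnitAddCircle.norm_eq]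
      simpa using round_le (x - ((A : ℝ) + γ) / q) 0
    refine h4.trans ?_
    have h5 : x - ((A : ℝ) + γ) / q = ((q : ℝ) * x - γ - A) / q := by
      field_simp
      ring
    rw [h5, abs_div, abs_of_pos hq']
    exact div_le_div_of_nonneg_right h hq'.le

theorem L_eq {γ : ℝ} {ψ : ℕ → ℝ} (hψ : ∀ q, 0 ≤ ψ q) :
    L γ ψ = blimsup (fun q : ℕ => cthickening (ψ q / q) (S γ q)) atTop (fun q => 0 < q) := by
  ext y
  rw [← Nat.cofinite_eq_atTop, cofinite.blimsup_set_eq]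
  change (∃ᶠ q : ℕ in atTop, 0 < q ∧ ‖q • y - (γ : UnitAddCircle)‖ ≤ ψ q) ↔
    {q : ℕ | 0 < q ∧ y ∈ cthickening (ψ q / q) (S γ q)}.Infinite
  rw [Nat.frequently_atTop_iff_infinite]
  have : {q : ℕ | 0 < q ∧ ‖q • y - (γ : UnitAddCircle)‖ ≤ ψ q} =
      {q : ℕ | 0 < q ∧ y ∈ cthickening (ψ q / q) (S γ q)} := by
    ext q
    constructor
    · rintro ⟨hq, h1⟩
      exact ⟨hq, (mem_ct hq (hψ q) y).2 h1⟩
    · rintro ⟨hq, h1⟩
      exact ⟨hq, (mem_ct hq (hψ q) y).1 h1⟩
  rw [this]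

theorem L_measurable {γ : ℝ} {ψ : ℕ → ℝ} (hψ : ∀ q, 0 ≤ ψ q) : MeasurableSet (L γ ψ) := by
  rw [L_eq hψ]
  exact MeasurableSet.measurableSet_blimsup fun n _ => isClosed_cthickening.measurableSet

theorem L_univ {γ : ℝ} {ψ : ℕ → ℝ} (h : ∃ᶠ q : ℕ in atTop, 1 / 2 ≤ ψ q) : L γ ψ = univ := by
  rw [eq_univ_iff_forall]
  intro y
  refine (h.and_eventually (eventually_gt_atTop 0)).mono ?_
  rintro q ⟨h1, hq⟩
  refine ⟨hq, le_trans ?_ h1⟩
  have := AddCircle.norm_le_half_period (p := (1 : ℝ)) one_ne_zero (x := q • y - (γ : UnitAddCircle))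
  simpa using this

theorem tendsto_of {ψ : ℕ → ℝ} (hψ : ∀ q, 0 ≤ ψ q) (h : ¬ ∃ᶠ q : ℕ in atTop, 1 / 2 ≤ ψ q) :
    Tendsto (fun q : ℕ => ψ q / q) atTop (𝓝 0) := by
  rw [not_frequently] at h
  have h1 : Tendsto (fun q : ℕ => (1 / 2 : ℝ) / q) atTop (𝓝 0) :=
    tendsto_const_div_atTop_nhds_zero_nat (1 / 2)
  refine tendsto_of_tendsto_of_tendsto_of_le_of_le' tendsto_const_nhds h1
    (Eventually.of_forall fun q => div_nonneg (hψ q) (Nat.cast_nonneg q)) ?_
  filter_upwards [h] with q hq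
  exact div_le_div_of_nonneg_right (not_le.1 hq).le (Nat.cast_nonneg q)

/-- scaling the radii does not change the set, up to a null set -/
theorem L_scale {γ : ℝ} {ψ : ℕ → ℝ} (hψ : ∀ q, 0 ≤ ψ q) {K : ℝ} (hK : 1 ≤ K) :
    L γ (fun q => K * ψ q) =ᵐ[volume] L γ ψ := by
  by_cases h : ∃ᶠ q : ℕ in atTop, 1 / 2 ≤ ψ q
  · have h2 : ∃ᶠ q : ℕ in atTop, 1 / 2 ≤ K * ψ q :=
      h.mono fun q hq => hq.trans (le_mul_of_one_le_left (hψ q) hK)
    exact EventuallyEq.of_eq ((L_univ h2).trans (L_univ h).symm)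
  · rw [L_eq hψ, L_eq fun q => mul_nonneg (by linarith) (hψ q)]
    have h1 := blimsup_cthickening_mul_ae_eq (volume : Measure UnitAddCircle) (fun q => 0 < q) (S γ)
      (by linarith : (0 : ℝ) < K) (fun q : ℕ => ψ q / q) (tendsto_of hψ h)
    simpa only [mul_div_assoc] using h1

theorem smul_mem {γ : UnitAddCircle} {ψ : ℕ → ℝ} (k : ℕ) {y : UnitAddCircle} (hy : y ∈ L γ ψ) :
    k • y ∈ L (k • γ) (fun q => k * ψ q) := by
  refine Frequently.mono hy ?_
  rintro q ⟨hq, h⟩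
  refine ⟨hq, ?_⟩
  have : q • k • y - k • γ = k • (q • y - γ) := by
    rw [smul_comm, nsmul_sub]
  rw [this]
  exact norm_nsmul_le.trans (mul_le_mul_of_nonneg_left h (Nat.cast_nonneg k))

/-- zero-one law for rational shifts -/
theorem zero_one {γ : ℝ} {s : ℕ} (hs : 0 < s) (hγ : s • (γ : UnitAddCircle) = 0) {ψ : ℕ → ℝ}
    (hψ : ∀ q, 0 ≤ ψ q) : L γ ψ =ᵐ[volume] (∅ : Set UnitAddCircle) ∨ L γ ψ =ᵐ[volume] univ := by
  have hk : 1 < s + 1 := by omega
  have herg := AddCircle.ergodic_nsmul (T := (1 : ℝ)) hk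
  refine herg.ae_empty_or_univ_of_ae_le_preimage (L_measurable hψ).nullMeasurableSet ?_
  have hfix : (s + 1) • (γ : UnitAddCircle) = γ := by rw [add_nsmul, hγ, zero_add, one_nsmul]
  have h1 : L γ ψ ⊆ (fun y : UnitAddCircle => (s + 1) • y) ⁻¹' L γ (fun q => ((s + 1 : ℕ) : ℝ) * ψ q) := by
    intro y hy
    have := smul_mem (s + 1) hy
    rw [hfix] at this
    exact this
  have h2 : (fun y : UnitAddCircle => (s + 1) • y) ⁻¹' L γ (fun q => ((s + 1 : ℕ) : ℝ) * ψ q)
      =ᵐ[volume] (fun y : UnitAddCircle => (s + 1) • y) ⁻¹' L γ ψ := by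
    refine herg.toMeasurePreserving.quasiMeasurePreserving.preimage_ae_eq (L_scale hψ ?_)
    exact_mod_cast hk.le
  exact h1.eventuallyLE.trans h2.le

/-- transfer: if almost every point is approximable with one of finitely many shifts `u / s`, and each of
these shifts is carried to `γ` by a dilation by some `k ≤ K`, then almost every point is approximable
with the shift `γ` -/
theorem full_of_cover {γ : ℝ} {s : ℕ} (hs : 0 < s) (hγ : s • (γ : UnitAddCircle) = 0) {ψ : ℕ → ℝ}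
    (hψ : ∀ q, 0 ≤ ψ q) {ι : Type} [Finite ι] (g : ι → UnitAddCircle) (k : ι → ℕ) (hk0 : ∀ i, 0 < k i)
    (hk : ∀ i, k i • g i = (γ : UnitAddCircle)) {K : ℕ} (hkK : ∀ i, k i ≤ K)
    (hcov : volume (⋃ i, L (g i) ψ)ᶜ = 0) : L γ ψ =ᵐ[volume] univ := by
  rcases zero_one hs hγ hψ with h | h
  · exfalso
    have hK1 : (1 : ℝ) ≤ max 1 (K : ℝ) := le_max_left _ _
    have h0 : L γ (fun q => max 1 (K : ℝ) * ψ q) =ᵐ[volume] (∅ : Set UnitAddCircle) :=
      (L_scale hψ hK1).trans h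
    have hsub : ∀ i, volume (L (g i) ψ) = 0 := by
      intro i
      have h1 : L (g i) ψ ⊆ (fun y : UnitAddCircle => (k i) • y) ⁻¹'
          L γ (fun q => max 1 (K : ℝ) * ψ q) := by
        intro y hy
        have h2 := smul_mem (k i) hy
        rw [hk i] at h2
        refine Frequently.mono h2 ?_
        rintro q ⟨hq, h3⟩
        refine ⟨hq, h3.trans (mul_le_mul_of_nonneg_right ?_ (hψ q))⟩
        exact le_trans (by exact_mod_cast hkK i) (le_max_right _ _)
      refine measure_mono_null h1 ?_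
      have hqmp : Measure.QuasiMeasurePreserving (fun y : UnitAddCircle => (k i) • y) volume volume := by
        have h5 := (MeasureTheory.Measure.measurePreserving_zsmul (volume : Measure UnitAddCircle)
          (n := (k i : ℤ)) (by exact_mod_cast (hk0 i).ne')).quasiMeasurePreserving
        simpa only [natCast_zsmul] using h5
      exact hqmp.preimage_null (ae_eq_empty.1 h0)
    have h3 : volume (⋃ i, L (g i) ψ) = 0 := by
      exact measure_iUnion_null hsub
    have h4 : (1 : ENNReal) = 0 := by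
      have h5 : volume (univ : Set UnitAddCircle) ≤
          volume (⋃ i, L (g i) ψ) + volume (⋃ i, L (g i) ψ)ᶜ := by
        rw [← union_compl_self (⋃ i, L (g i) ψ)]
        exact measure_union_le _ _
      rw [h3, hcov, add_zero, UnitAddCircle.measure_univ] at h5
      exact le_antisymm h5 zero_le_one
    exact one_ne_zero h4
  · exact h

end Pool.Agent.H685IDS
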