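import Pool.Agent.H560DS.DS23

set_option autoImplicit false

/-! The Duffin-Schaeffer theorem (Koukoulopoulos-Maynard) from the second moment bound of
`Pool.Agent.H560DS`. -/

namespace Pool.Agent.H685IDS

open MeasureTheory Filter Set
open Pool.Agent.H560DS
open scoped Topology

/-- the points of `[0,1]` within `ψ q / q` of a reduced fraction with denominator `q` -/
def E (ψ : ℕ → ℝ) (q : ℕ) : Set ℝ :=
  {x : ℝ | x ∈ Icc (0 : ℝ) 1 ∧ ∃ a : ℤ, Int.gcd a (q : ℤ) = 1 ∧ |x - (a : ℝ) / (q : ℝ)| < ψ q / (q : ℝ)}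

theorem not_summable_min {a : ℕ → ℝ} (_ha : ∀ n, 0 ≤ a n) (h : ¬ Summable a) :
    ¬ Summable (fun n => min (a n) 1) := by
  intro hs
  apply h
  have h0 := hs.tendsto_atTop_zero
  have h1 : ∀ᶠ n in atTop, min (a n) 1 < 1 := h0.eventually (gt_mem_nhds one_pos)
  refine hs.congr_cofinite ?_
  rw [Nat.cofinite_eq_atTop]
  filter_upwards [h1] with n hn
  rcases le_or_gt (a n) 1 with h2 | h2
  · exact min_eq_left h2
  · rw [min_eq_right h2.le] at hn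
    exact absurd hn (lt_irrefl _)

theorem exists_tail_sum {f : ℕ → ℝ} (hf : ∀ n, 0 ≤ f n) (h : ¬ Summable f) (N : ℕ) (M : ℝ) :
    ∃ n, M ≤ ∑ k ∈ Finset.Ico N n, f k := by
  have h1 := (not_summable_iff_tendsto_nat_atTop_of_nonneg hf).1 h
  obtain ⟨n, hn1, hn2⟩ := ((h1.eventually_ge_atTop (M + ∑ k ∈ Finset.range N, f k)).and
    (eventually_ge_atTop N)).exists
  refine ⟨n, ?_⟩
  have h2 := Finset.sum_range_add_sum_Ico f hn2
  linarith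

theorem tail (γ : ℝ) (hγ0 : 0 < γ) (hγ1 : γ < 1) (ψ : ℕ → ℝ) (hψ : ∀ n, 0 ≤ ψ n)
    (hdiv : ¬ Summable (fun q : ℕ => (Nat.totient q : ℝ) * ψ q / (q : ℝ))) (N : ℕ) :
    ∃ X : Finset ℕ, (∀ q ∈ X, N ≤ q ∧ 0 < q) ∧ γ ≤ volume.real (⋃ q ∈ X,
      {x : Fin 1 → ℝ | ∀ i, x i ∈ Icc (0 : ℝ) 1 ∧
        ∃ a : ℤ, Int.gcd a ((q : ℕ) : ℤ) = 1 ∧ |x i - (a : ℝ) / ((q : ℕ) : ℝ)| < ψ q / ((q : ℕ) : ℝ)}) := by
  obtain ⟨ε, hε0, hε1, hδ⟩ := final_eps 1 γ hγ0 hγ1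
  obtain ⟨C, hC0, hC⟩ := variance 1 le_rfl ε hε0
  obtain ⟨q0, hq0⟩ := good_res hdiv8 ε hε0
  set δ := ((1 - ε) ^ 1) ^ 2 - γ * (1 + ε) with hδdef
  set M1 : ℝ := max 1 ((γ * C / δ) ^ 2) with hM1
  have hM11 : 1 ≤ M1 := le_max_left _ _
  set ψ' : ℕ → ℝ := fun k => min (ψ k) ((k : ℝ) / (2 * (Nat.totient k : ℝ))) with hψ'def
  have hψ'0 : ∀ n, 0 ≤ ψ' n := by
    intro n
    exact le_min (hψ n) (by positivity)
  have hψ'le : ∀ n, ψ' n ≤ ψ n := fun n => min_le_left _ _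
  have hmm' : ∀ n, 0 < n → mm ψ' n = min (mm ψ n) 1 := fun n hn => final_mm ψ n hn
  have hmm'1 : ∀ n, 0 < n → mm ψ' n ≤ 1 := fun n hn => by
    rw [hmm' n hn]; exact min_le_right _ _
  have hmm'0 : ∀ n, 0 ≤ mm ψ' n := fun n => by
    unfold mm
    have := hψ'0 n
    positivity
  have hmm0 : ∀ n, 0 ≤ mm ψ n := fun n => by
    unfold mm
    have := hψ n
    positivity
  have hns : ¬ Summable (mm ψ) := by
    intro hs
    apply hdiv
    have := hs.mul_left (1 / 2)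
    refine this.congr fun q => ?_
    unfold mm
    ring
  have hns' : ¬ Summable (mm ψ') := by
    intro hs
    apply not_summable_min hmm0 hns
    refine hs.congr_cofinite ?_
    rw [Nat.cofinite_eq_atTop]
    filter_upwards [eventually_gt_atTop 0] with n hn
    exact hmm' n hn
  obtain ⟨n1, hn1⟩ := exists_tail_sum hmm'0 hns' (max (max N q0) 1) M1
  set X : Finset ℕ := Finset.Ico (max (max N q0) 1) n1 with hX
  have hXmem : ∀ q ∈ X, N ≤ q ∧ q0 ≤ q ∧ 0 < q := by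
    intro q hq
    rw [hX, Finset.mem_Ico] at hq
    have h1 := hq.1
    simp only [max_le_iff] at h1
    exact ⟨h1.1.1, h1.1.2, h1.2⟩
  set P : ℝ := ∑ q ∈ X, mm ψ' q ^ 1 with hPdef
  have hPM1 : M1 ≤ P := by
    rw [hPdef]
    simpa only [pow_one] using hn1
  have hP1 : 1 ≤ P := le_trans hM11 hPM1
  have hvar := hC X ψ' (fun q hq => (hXmem q hq).2.2) hψ'0 (fun q hq => hmm'1 q (hXmem q hq).2.2) hP1
  have hul := union_lower 1 le_rfl X ψ' (fun q hq => (hXmem q hq).2.2) hψ'0 (1 - ε) (by linarith)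
    (fun q hq => hq0 q (ψ' q) (hXmem q hq).2.1 (hψ'0 q) (hmm'1 q (hXmem q hq).2.2))
  rw [← hPdef] at hvar hul
  set U' : Set (Fin 1 → ℝ) := ⋃ q ∈ X, {x : Fin 1 → ℝ | ∀ i, x i ∈ Set.Icc (0 : ℝ) 1 ∧
        ∃ a : ℤ, Int.gcd a ((q : ℕ) : ℤ) = 1 ∧ |x i - (a : ℝ) / ((q : ℕ) : ℝ)| < ψ' q / ((q : ℕ) : ℝ)} with hU'
  set D : ℝ := (1 + ε) * P ^ 2 + C * P ^ (3 / 2 : ℝ) with hD
  have hDpos : 0 < D := by
    have hP0 : 0 < P := by linarith
    have : 0 < P ^ (3 / 2 : ℝ) := Real.rpow_pos_of_pos hP0 _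
    positivity
  have hkey := final_M1 δ γ C ε (((1 - ε) ^ 1) ^ 2) hδ hδdef.symm P hP1
    (le_trans (le_max_right _ _) hPM1)
  have hvolreal : γ ≤ volume.real U' := by
    have h5 : γ * D ≤ volume.real U' * D := by
      calc γ * D ≤ ((1 - ε) ^ 1) ^ 2 * P ^ 2 := hkey
        _ = ((1 - ε) ^ 1 * P) ^ 2 := by ring
        _ ≤ volume.real U' * ∑ q ∈ X, ∑ r ∈ X, EE ψ' q r ^ 1 := hul
        _ ≤ volume.real U' * D :=
            mul_le_mul_of_nonneg_left hvar measureReal_nonneg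
    exact le_of_mul_le_mul_right h5 hDpos
  refine ⟨X, fun q hq => ⟨(hXmem q hq).1, (hXmem q hq).2.2⟩, hvolreal.trans ?_⟩
  refine measureReal_mono ?_ ?_
  · rw [hU']
    refine iUnion₂_mono fun q hq => ?_
    intro x hx i
    obtain ⟨hx1, a, ha1, ha2⟩ := hx i
    refine ⟨hx1, a, ha1, lt_of_lt_of_le ha2 ?_⟩
    exact div_le_div_of_nonneg_right (hψ'le _) (by positivity)
  · have hsub : (⋃ q ∈ X, {x : Fin 1 → ℝ | ∀ i, x i ∈ Icc (0 : ℝ) 1 ∧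
        ∃ a : ℤ, Int.gcd a ((q : ℕ) : ℤ) = 1 ∧ |x i - (a : ℝ) / ((q : ℕ) : ℝ)| < ψ q / ((q : ℕ) : ℝ)}) ⊆
        Set.pi Set.univ (fun _ : Fin 1 => Set.Icc (0 : ℝ) 1) :=
      iUnion₂_subset fun q _ x hx i _ => (hx i).1
    refine ne_top_of_le_ne_top ?_ (measure_mono hsub)
    rw [volume_pi_pi]
    simp

/-- the union over any tail has full measure -/
theorem tail_real (ψ : ℕ → ℝ) (hψ : ∀ n, 0 ≤ ψ n)
    (hdiv : ¬ Summable (fun q : ℕ => (Nat.totient q : ℝ) * ψ q / (q : ℝ))) (N : ℕ) :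
    volume (Icc (0 : ℝ) 1 \ ⋃ q : ℕ, ⋃ _ : N ≤ q ∧ 0 < q, E ψ q) = 0 := by
  have hmeas : MeasurableSet (⋃ q : ℕ, ⋃ _ : N ≤ q ∧ 0 < q, E ψ q) := by
    refine MeasurableSet.iUnion fun q => MeasurableSet.iUnion fun _ => ?_
    have : E ψ q = Icc (0 : ℝ) 1 ∩ ⋃ a : ℤ, {x : ℝ | Int.gcd a (q : ℤ) = 1 ∧ |x - (a : ℝ) / (q : ℝ)| < ψ q / (q : ℝ)} := by
      ext x
      simp [E]
    rw [this]
    refine measurableSet_Icc.inter (MeasurableSet.iUnion fun a => ?_)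
    by_cases h : Int.gcd a (q : ℤ) = 1
    · simp only [h, true_and]
      exact measurableSet_lt (by fun_prop) measurable_const
    · simp [h]
  have hsubI : (⋃ q : ℕ, ⋃ _ : N ≤ q ∧ 0 < q, E ψ q) ⊆ Icc (0 : ℝ) 1 :=
    iUnion₂_subset fun q _ x hx => hx.1
  set V : Set ℝ := ⋃ q : ℕ, ⋃ _ : N ≤ q ∧ 0 < q, E ψ q with hV
  have hV1 : volume V ≤ 1 := by
    calc volume V ≤ volume (Icc (0 : ℝ) 1) := measure_mono hsubI
      _ = 1 := by simp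
  have hge : ∀ γ : ℝ, 0 < γ → γ < 1 → ENNReal.ofReal γ ≤ volume V := by
    intro γ h0 h1
    obtain ⟨X, hX, hv⟩ := tail γ h0 h1 ψ hψ hdiv N
    have hmp := volume_preserving_funUnique (Fin 1) ℝ
    have h3 : (⋃ q ∈ X, {x : Fin 1 → ℝ | ∀ i, x i ∈ Icc (0 : ℝ) 1 ∧
        ∃ a : ℤ, Int.gcd a ((q : ℕ) : ℤ) = 1 ∧ |x i - (a : ℝ) / ((q : ℕ) : ℝ)| < ψ q / ((q : ℕ) : ℝ)}) ⊆
        (MeasurableEquiv.funUnique (Fin 1) ℝ) ⁻¹' V := by
      refine iUnion₂_subset fun q hq x hx => ?_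
      change x default ∈ V
      rw [hV]
      exact mem_iUnion₂.2 ⟨q, hX q hq, hx default⟩
    calc ENNReal.ofReal γ ≤ ENNReal.ofReal (volume.real _) := ENNReal.ofReal_le_ofReal hv
      _ ≤ volume _ := ENNReal.ofReal_toReal_le
      _ ≤ volume ((MeasurableEquiv.funUnique (Fin 1) ℝ) ⁻¹' V) := measure_mono h3
      _ = volume V := hmp.measure_preimage hmeas.nullMeasurableSet
  have hone : volume V = 1 := by
    refine le_antisymm hV1 ?_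
    have hlim : Tendsto (fun n : ℕ => ENNReal.ofReal (1 - 1 / ((n : ℝ) + 2))) atTop (𝓝 (ENNReal.ofReal 1)) := by
      refine ENNReal.tendsto_ofReal ?_
      have h5 : Tendsto (fun n : ℕ => 1 / ((n : ℝ) + 2)) atTop (𝓝 0) := by
        refine Tendsto.div_atTop tendsto_const_nhds ?_
        exact tendsto_atTop_add_const_right _ _ tendsto_natCast_atTop_atTop
      simpa using tendsto_const_nhds.sub h5
    rw [ENNReal.ofReal_one] at hlim
    refine le_of_tendsto' hlim fun n => hge _ ?_ ?_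
    · have : (1 : ℝ) / ((n : ℝ) + 2) ≤ 1 / 2 := by
        apply one_div_le_one_div_of_le (by norm_num)
        have : (0 : ℝ) ≤ n := Nat.cast_nonneg n
        linarith
      linarith
    · have : (0 : ℝ) < 1 / ((n : ℝ) + 2) := by positivity
      linarith
  rw [measure_sdiff hsubI hmeas.nullMeasurableSet (by rw [hone]; exact ENNReal.one_ne_top), hone]
  simp

/-- The Duffin-Schaeffer theorem: if `∑ φ(q) ψ(q) / q` diverges then almost every `x` in `[0,1]` has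
infinitely many reduced fractions `a / q` with `|x - a/q| < ψ q / q`. -/
theorem duffin_schaeffer (ψ : ℕ → ℝ) (hψ : ∀ n, 0 ≤ ψ n)
    (hdiv : ¬ Summable (fun q : ℕ => (Nat.totient q : ℝ) * ψ q / (q : ℝ))) :
    ∀ᵐ x : ℝ, x ∈ Icc (0 : ℝ) 1 → ∃ᶠ q : ℕ in atTop, 0 < q ∧
      ∃ a : ℤ, Int.gcd a (q : ℤ) = 1 ∧ |x - (a : ℝ) / (q : ℝ)| < ψ q / (q : ℝ) := by
  have h1 : ∀ N : ℕ, ∀ᵐ x : ℝ, x ∉ Icc (0 : ℝ) 1 \ ⋃ q : ℕ, ⋃ _ : N ≤ q ∧ 0 < q, E ψ q := by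
    intro N
    exact measure_eq_zero_iff_ae_notMem.1 (tail_real ψ hψ hdiv N)
  filter_upwards [ae_all_iff.2 h1] with x hx hxI
  rw [frequently_atTop]
  intro N
  have h2 := hx N
  rw [Set.mem_sdiff, not_and, not_not] at h2
  obtain ⟨q, hq, hxq⟩ := mem_iUnion₂.1 (h2 hxI)
  exact ⟨q, hq.1, hq.2, hxq.2⟩

end Pool.Agent.H685IDS
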