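import Pool.Agent.H685IDS.Rat

set_option autoImplicit false

/-! Back to the unit interval -/

namespace Pool.Agent.H685IDS

open MeasureTheory Filter Set Metric
open scoped Topology

/-- the points `x ∈ [0,1]` with `‖x - (a + γ) / q‖ ≤ ψ q / q` for some `a ∈ I q`, for infinitely many
`q ≥ 1` -/
def LS (γ : ℝ) (ψ : ℕ → ℝ) (I : ℕ → Finset ℕ) : Set ℝ :=
  {x : ℝ | x ∈ Icc (0 : ℝ) 1 ∧ ∃ᶠ q : ℕ in atTop, 1 ≤ q ∧ ∃ a ∈ I q,
    |(x - ((a : ℝ) + γ) / q) - round (x - ((a : ℝ) + γ) / q)| ≤ ψ q / q}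

theorem mem_all {γ : ℝ} {q : ℕ} (hq : 0 < q) {δ : ℝ} (hδ : 0 ≤ δ) (x : ℝ) :
    (∃ a ∈ Finset.range q, |(x - ((a : ℝ) + γ) / q) - round (x - ((a : ℝ) + γ) / q)| ≤ δ / q) ↔
      ‖q • (x : UnitAddCircle) - (γ : UnitAddCircle)‖ ≤ δ := by
  have hq' : (0 : ℝ) < q := by exact_mod_cast hq
  rw [← mem_ct hq hδ, (S_compact γ q).cthickening_eq_biUnion_closedBall (div_nonneg hδ hq'.le)]
  simp only [mem_iUnion, mem_closedBall, exists_prop]
  constructor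
  · rintro ⟨a, ha, h⟩
    refine ⟨_, ⟨⟨a, Finset.mem_range.1 ha⟩, rfl⟩, ?_⟩
    rw [dist_eq_norm, ← AddCircle.coe_sub, UnitAddCircle.norm_eq]
    exact h
  · rintro ⟨z, ⟨A, rfl⟩, h⟩
    refine ⟨(A : ℕ), Finset.mem_range.2 A.2, ?_⟩
    rw [dist_eq_norm, ← AddCircle.coe_sub, UnitAddCircle.norm_eq] at h
    exact h

theorem LS_all {γ : ℝ} {ψ : ℕ → ℝ} (hψ : ∀ q, 0 ≤ ψ q) :
    LS γ ψ Finset.range = Icc (0 : ℝ) 1 ∩ (fun x : ℝ => (x : UnitAddCircle)) ⁻¹' L γ ψ := by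
  ext x
  refine and_congr_right fun _ => frequently_congr (Eventually.of_forall fun q => ?_)
  constructor
  · rintro ⟨hq, h⟩
    exact ⟨hq, (mem_all hq (hψ q) x).1 h⟩
  · rintro ⟨hq, h⟩
    exact ⟨hq, (mem_all hq (hψ q) x).2 h⟩

theorem vol_LS {γ : ℝ} {ψ : ℕ → ℝ} (hψ : ∀ q, 0 ≤ ψ q) :
    volume (LS γ ψ Finset.range) = volume (L γ ψ) := by
  have hmp := UnitAddCircle.measurePreserving_mk 0
  rw [← hmp.measure_preimage (L_measurable hψ).nullMeasurableSet,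
    Measure.restrict_apply (hmp.measurable (L_measurable hψ)), LS_all hψ, zero_add, inter_comm]
  refine measure_congr ?_
  exact (EventuallyEq.refl _ _).inter Ioc_ae_eq_Icc.symm

theorem LS_zero_one (γ : ℚ) {ψ : ℕ → ℝ} (hψ : ∀ q, 0 ≤ ψ q) :
    volume (LS γ ψ Finset.range) = 0 ∨ volume (LS γ ψ Finset.range) = 1 := by
  rw [vol_LS hψ]
  have hs' : (γ.den : ℝ) ≠ 0 := by exact_mod_cast γ.pos.ne'
  have hγ : (γ : ℝ) = (γ.num : ℝ) / γ.den := by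
    exact_mod_cast (Rat.num_div_den γ).symm
  have hsγ : γ.den • ((γ : ℝ) : UnitAddCircle) = 0 := by
    rw [← AddCircle.coe_nsmul, nsmul_eq_mul]
    have : (γ.den : ℝ) * (γ : ℝ) = γ.num := by
      rw [hγ]
      field_simp
    rw [this, coe_int]
  rcases zero_one γ.pos hsγ hψ with h | h
  · left
    rw [measure_congr h, measure_empty]
  · right
    rw [measure_congr h, UnitAddCircle.measure_univ]

theorem LS_full (γ : ℚ) {ψ : ℕ → ℝ} (hψ : ∀ q, 0 ≤ ψ q)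
    (hdiv : ¬ Summable (fun q : ℕ => (Nat.totient q : ℝ) * ψ q / (q : ℝ))) :
    volume (LS γ ψ Finset.range) = 1 := by
  rw [vol_LS hψ, measure_congr (rational_full γ hψ hdiv), UnitAddCircle.measure_univ]

end Pool.Agent.H685IDS
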