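import Pool.Agent.H685IDS.Circle
import Pool.Agent.H685IDS.KM

set_option autoImplicit false

/-! Rational shifts -/

namespace Pool.Agent.H685IDS

open MeasureTheory Filter Set Metric
open scoped Topology

theorem not_summable_lift {s : ℕ} (hs : 0 < s) {ψ : ℕ → ℝ} (hψ : ∀ q, 0 ≤ ψ q)
    (hdiv : ¬ Summable (fun q : ℕ => (Nat.totient q : ℝ) * ψ q / (q : ℝ))) :
    ¬ Summable (fun n : ℕ => (Nat.totient n : ℝ) * (if s ∣ n then (s : ℝ) * ψ (n / s) else 0) / (n : ℝ)) := by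
  intro h
  apply hdiv
  have hinj : Function.Injective (fun q : ℕ => s * q) := fun a b hab => Nat.eq_of_mul_eq_mul_left hs hab
  have h1 := h.comp_injective hinj
  refine Summable.of_nonneg_of_le (fun q => div_nonneg (mul_nonneg (Nat.cast_nonneg _) (hψ q))
    (Nat.cast_nonneg _)) (fun q => ?_) h1
  simp only [Function.comp_apply, Nat.dvd_mul_right, if_true, Nat.mul_div_cancel_left q hs]
  rcases Nat.eq_zero_or_pos q with rfl | hq
  · simp
  have hs' : (0 : ℝ) < s := by exact_mod_cast hs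
  have hq' : (0 : ℝ) < q := by exact_mod_cast hq
  have h2 : (Nat.totient (s * q) : ℝ) * ((s : ℝ) * ψ q) / ((s * q : ℕ) : ℝ) =
      (Nat.totient (s * q) : ℝ) * ψ q / (q : ℝ) := by
    push_cast
    field_simp
  rw [h2]
  have h3 : (Nat.totient q : ℝ) ≤ (Nat.totient (s * q) : ℝ) := by
    exact_mod_cast Nat.le_of_dvd (Nat.totient_pos.2 (Nat.mul_pos hs hq))
      (Nat.totient_dvd_of_dvd (Nat.dvd_mul_left q s))
  exact div_le_div_of_nonneg_right (mul_le_mul_of_nonneg_right h3 (hψ q)) hq'.le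

theorem coe_int (a : ℤ) : ((a : ℝ) : UnitAddCircle) = 0 := by
  rw [AddCircle.coe_eq_zero_iff]
  exact ⟨a, by simp⟩

theorem norm_coe_le (x : ℝ) : ‖(x : UnitAddCircle)‖ ≤ |x| := by
  rw [UnitAddCircle.norm_eq]
  simpa using round_le x 0

/-- the units modulo `s` -/
abbrev Un (s : ℕ) := {u : Fin s // Nat.Coprime (u : ℕ) s}

theorem cover {s : ℕ} (hs : 0 < s) {ψ : ℕ → ℝ} (hψ : ∀ q, 0 ≤ ψ q)
    (hdiv : ¬ Summable (fun q : ℕ => (Nat.totient q : ℝ) * ψ q / (q : ℝ))) :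
    volume (⋃ i : Un s, L ((((i.1 : ℕ) : ℝ) / s : ℝ) : UnitAddCircle) ψ)ᶜ = 0 := by
  have hs' : (0 : ℝ) < s := by exact_mod_cast hs
  have hmeas : MeasurableSet (⋃ i : Un s, L ((((i.1 : ℕ) : ℝ) / s : ℝ) : UnitAddCircle) ψ) :=
    MeasurableSet.iUnion fun i => L_measurable hψ
  have hDS := duffin_schaeffer (fun n : ℕ => if s ∣ n then (s : ℝ) * ψ (n / s) else 0) (fun n => by
    split_ifs
    · exact mul_nonneg hs'.le (hψ _)
    · exact le_rfl) (not_summable_lift hs hψ hdiv)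
  have hmp := UnitAddCircle.measurePreserving_mk 0
  rw [← hmp.measure_preimage hmeas.compl.nullMeasurableSet]
  rw [Measure.restrict_apply (hmp.measurable hmeas.compl)]
  have h2 : volume {x : ℝ | ¬ (x ∈ Icc (0 : ℝ) 1 → ∃ᶠ q : ℕ in atTop, 0 < q ∧
      ∃ a : ℤ, Int.gcd a (q : ℤ) = 1 ∧
        |x - (a : ℝ) / (q : ℝ)| < (if s ∣ q then (s : ℝ) * ψ (q / s) else 0) / (q : ℝ))} = 0 := hDS
  refine measure_mono_null ?_ h2
  rintro x ⟨hx1, hx2⟩
  simp only [zero_add, mem_Ioc] at hx2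
  simp only [mem_ofPred_eq]
  intro hcon
  apply hx1
  have hf := hcon ⟨hx2.1.le, hx2.2⟩
  -- frequently some class
  have hf2 : ∃ᶠ q : ℕ in atTop, ∃ i : Un s, 0 < q ∧
      ‖q • (x : UnitAddCircle) - ((((i.1 : ℕ) : ℝ) / s : ℝ) : UnitAddCircle)‖ ≤ ψ q := by
    rw [frequently_atTop] at hf ⊢
    intro N
    obtain ⟨n, hn, hn0, a, ha, hax⟩ := hf (s * N)
    by_cases hsn : s ∣ n
    · obtain ⟨q, rfl⟩ := hsn
      rw [if_pos (Nat.dvd_mul_right s q), Nat.mul_div_cancel_left q hs] at hax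
      have hq : 0 < q := Nat.pos_of_mul_pos_left hn0 |> fun h => by
        rcases Nat.eq_zero_or_pos q with h0 | h0
        · rw [h0, Nat.mul_zero] at hn0; exact absurd hn0 (lt_irrefl _)
        · exact h0
      have hq' : (0 : ℝ) < q := by exact_mod_cast hq
      refine ⟨q, Nat.le_of_mul_le_mul_left hn hs, ?_⟩
      have hsz : (s : ℤ) ≠ 0 := by exact_mod_cast hs.ne'
      have hb0 : 0 ≤ a % (s : ℤ) := Int.emod_nonneg _ hsz
      have hb1 : a % (s : ℤ) < s := Int.emod_lt_of_pos _ (by exact_mod_cast hs)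
      have hlt : (a % (s : ℤ)).toNat < s := by omega
      have hcast : (((a % (s : ℤ)).toNat : ℕ) : ℤ) = a % (s : ℤ) := Int.toNat_of_nonneg hb0
      have hcop : Nat.Coprime (a % (s : ℤ)).toNat s := by
        have h5 : Int.gcd a (s : ℤ) = 1 := by
          have h6 : Int.gcd a (s : ℤ) ∣ Int.gcd a ((s * q : ℕ) : ℤ) :=
            Int.gcd_dvd_gcd_of_dvd_right a (by push_cast; exact Dvd.intro _ rfl)
          rw [ha] at h6
          exact Nat.dvd_one.1 h6
        rw [← Nat.isCoprime_iff_coprime, hcast]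
        have h7 : IsCoprime a (s : ℤ) := Int.isCoprime_iff_gcd_eq_one.2 h5
        have h8 : a % (s : ℤ) = a + (s : ℤ) * (-(a / s)) := by
          have := Int.mul_ediv_add_emod a s
          linarith
        rw [h8]
        exact IsCoprime.add_mul_left_left h7 _
      refine ⟨⟨⟨(a % (s : ℤ)).toNat, hlt⟩, hcop⟩, hq, ?_⟩
      rw [← AddCircle.coe_nsmul, ← AddCircle.coe_sub, nsmul_eq_mul]
      have hdec : (a : ℝ) = (s : ℝ) * ((a / s : ℤ) : ℝ) + ((((a % (s : ℤ)).toNat : ℕ)) : ℝ) := by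
        have h9 : (a : ℤ) = s * (a / s) + (((a % (s : ℤ)).toNat : ℕ) : ℤ) := by
          rw [hcast]; exact (Int.mul_ediv_add_emod a s).symm
        exact_mod_cast congrArg (fun t : ℤ => (t : ℝ)) h9
      have h10 : ((q : ℝ) * x - ((((⟨(a % (s : ℤ)).toNat, hlt⟩ : Fin s) : ℕ)) : ℝ) / s : ℝ) =
          ((q : ℝ) * x - a / s) + ((a / s : ℤ) : ℝ) := by
        simp only
        rw [hdec]
        field_simp
        ring
      rw [h10, AddCircle.coe_add, coe_int, add_zero]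
      refine (norm_coe_le _).trans ?_
      have h11 : (q : ℝ) * x - a / s = q * (x - a / ((s * q : ℕ) : ℝ)) := by
        push_cast
        field_simp
      rw [h11, abs_mul, abs_of_pos hq']
      have h12 : (s : ℝ) * ψ q / ((s * q : ℕ) : ℝ) = ψ q / q := by
        push_cast
        field_simp
      rw [h12] at hax
      calc (q : ℝ) * |x - a / ((s * q : ℕ) : ℝ)| ≤ q * (ψ q / q) :=
            mul_le_mul_of_nonneg_left hax.le hq'.le
        _ = ψ q := by field_simp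
    · rw [if_neg hsn, zero_div] at hax
      exact absurd hax (not_lt.2 (abs_nonneg _))
  change (x : UnitAddCircle) ∈ ⋃ i : Un s, L ((((i.1 : ℕ) : ℝ) / s : ℝ) : UnitAddCircle) ψ
  rw [mem_iUnion]
  by_contra hno
  push Not at hno
  have h3 : ∀ i : Un s, ∀ᶠ q : ℕ in atTop, ¬ (0 < q ∧
      ‖q • (x : UnitAddCircle) - ((((i.1 : ℕ) : ℝ) / s : ℝ) : UnitAddCircle)‖ ≤ ψ q) := by
    intro i
    exact not_frequently.1 (hno i)
  have h4 := eventually_all.2 h3
  refine hf2 ?_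
  filter_upwards [h4] with q hq
  rintro ⟨i, hi⟩
  exact hq i hi

/-- for a rational shift almost every point of the circle is approximable -/
theorem rational_full (γ : ℚ) {ψ : ℕ → ℝ} (hψ : ∀ q, 0 ≤ ψ q)
    (hdiv : ¬ Summable (fun q : ℕ => (Nat.totient q : ℝ) * ψ q / (q : ℝ))) :
    L ((γ : ℝ) : UnitAddCircle) ψ =ᵐ[volume] univ := by
  set s := γ.den with hs
  have hs0 : 0 < s := γ.pos
  have : NeZero s := ⟨hs0.ne'⟩
  have hs' : (s : ℝ) ≠ 0 := by exact_mod_cast hs0.ne'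
  have hγ : (γ : ℝ) = (γ.num : ℝ) / s := by
    rw [hs]; exact_mod_cast (Rat.num_div_den γ).symm
  have hsγ : s • ((γ : ℝ) : UnitAddCircle) = 0 := by
    rw [← AddCircle.coe_nsmul, nsmul_eq_mul, hγ, mul_div_cancel₀ _ hs', coe_int]
  let k : Un s → ℕ := fun i => ((γ.num : ZMod s) * (((i.1 : ℕ) : ZMod s))⁻¹).val + s
  refine full_of_cover hs0 hsγ hψ (fun i : Un s => ((((i.1 : ℕ) : ℝ) / s : ℝ) : UnitAddCircle)) k
    (fun i => Nat.lt_of_lt_of_le hs0 (Nat.le_add_left _ _)) ?_ (K := 2 * s) ?_ (cover hs0 hψ hdiv)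
  · intro i
    have h1 : ((k i * (i.1 : ℕ) : ℕ) : ZMod s) = (γ.num : ZMod s) := by
      have hu : IsUnit ((((i.1 : ℕ)) : ZMod s)) := (ZMod.isUnit_iff_coprime _ _).2 i.2
      simp only [k]
      push_cast
      rw [ZMod.natCast_val, ZMod.cast_id', id, ZMod.natCast_self, add_zero, mul_assoc,
        ZMod.inv_mul_of_unit _ hu, mul_one]
    have h2 : ((((k i * (i.1 : ℕ) : ℕ) : ℤ) - γ.num : ℤ) : ZMod s) = 0 := by
      push_cast
      push_cast at h1
      rw [h1, sub_self]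
    rw [ZMod.intCast_zmod_eq_zero_iff_dvd] at h2
    obtain ⟨m, hm⟩ := h2
    rw [← AddCircle.coe_nsmul, nsmul_eq_mul]
    have h3 : ((k i : ℕ) : ℝ) * (((i.1 : ℕ) : ℝ) / s) = (γ : ℝ) + (m : ℝ) := by
      have h4 : ((k i : ℕ) : ℝ) * ((i.1 : ℕ) : ℝ) = (γ.num : ℝ) + (s : ℝ) * m := by
        have h5 : ((k i * (i.1 : ℕ) : ℕ) : ℤ) = γ.num + s * m := by linarith
        exact_mod_cast congrArg (fun t : ℤ => (t : ℝ)) h5
      rw [hγ, ← mul_div_assoc, h4]
      field_simp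
    rw [h3, AddCircle.coe_add, coe_int, add_zero]
  · intro i
    have h1 : ((γ.num : ZMod s) * (((i.1 : ℕ) : ZMod s))⁻¹).val < s := ZMod.val_lt _
    simp only [k]
    omega

end Pool.Agent.H685IDS
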