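import Pool.Agent.H685IDS.Line

set_option autoImplicit false

/-! For a given rate of divergence, the limsup set for all residues has full measure for all shifts in
a dense Gδ set containing the rational numbers, and for all `ψ` with at least this rate. -/

namespace Pool.Agent.H685IDS

open MeasureTheory Filter Set Metric
open scoped Topology

/-- the points `y` of the circle with `‖q y - γ‖ < ψ q - ε` for some `q` with `N ≤ q < M` -/
def O (ψ : ℕ → ℝ) (N M : ℕ) (ε γ : ℝ) : Set UnitAddCircle :=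
  {y | ∃ q : ℕ, N ≤ q ∧ q < M ∧ 0 < q ∧ ‖q • y - (γ : UnitAddCircle)‖ < ψ q - ε}

theorem O_mono_M {ψ : ℕ → ℝ} {N M M' : ℕ} {ε γ : ℝ} (h : M ≤ M') : O ψ N M ε γ ⊆ O ψ N M' ε γ := by
  rintro y ⟨q, h1, h2, h3, h4⟩
  exact ⟨q, h1, h2.trans_le h, h3, h4⟩

theorem O_mono_eps {ψ : ℕ → ℝ} {N M : ℕ} {ε ε' γ : ℝ} (h : ε' ≤ ε) : O ψ N M ε γ ⊆ O ψ N M ε' γ := by
  rintro y ⟨q, h1, h2, h3, h4⟩
  exact ⟨q, h1, h2, h3, by linarith⟩

theorem O_shift {ψ ψ' : ℕ → ℝ} {N M : ℕ} {ε γ γ' : ℝ} (h : |γ - γ'| ≤ ε / 2)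
    (h' : ∀ q ∈ Finset.range M, ψ q - ε / 2 ≤ ψ' q) : O ψ N M ε γ ⊆ O ψ' N M 0 γ' := by
  rintro y ⟨q, h1, h2, h3, h4⟩
  refine ⟨q, h1, h2, h3, ?_⟩
  have h5 : q • y - (γ' : UnitAddCircle) = (q • y - (γ : UnitAddCircle)) + ((γ - γ' : ℝ) : UnitAddCircle) := by
    rw [AddCircle.coe_sub]
    abel
  rw [h5]
  have h6 := norm_add_le (q • y - (γ : UnitAddCircle)) ((γ - γ' : ℝ) : UnitAddCircle)
  have h7 := norm_coe_le (γ - γ')
  have h8 := h' q (Finset.mem_range.2 h2)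
  linarith

theorem O_open (N M : ℕ) (c : ENNReal) :
    IsOpen {p : (ℕ → ℝ) × ℝ | c < volume (O p.1 N M 0 p.2)} := by
  rw [isOpen_iff_mem_nhds]
  rintro ⟨ψ, γ⟩ hp
  have hU : (⋃ k : ℕ, O ψ N M (1 / ((k : ℝ) + 1)) γ) = O ψ N M 0 γ := by
    apply Subset.antisymm
    · refine iUnion_subset fun k => O_mono_eps (by positivity)
    · rintro y ⟨q, h1, h2, h3, h4⟩
      obtain ⟨k, hk⟩ := exists_nat_one_div_lt (show 0 < ψ q - ‖q • y - (γ : UnitAddCircle)‖ by linarith)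
      exact mem_iUnion.2 ⟨k, q, h1, h2, h3, by linarith⟩
  have hmono : Monotone fun k : ℕ => O ψ N M (1 / ((k : ℝ) + 1)) γ := by
    intro k l hkl
    refine O_mono_eps ?_
    apply one_div_le_one_div_of_le (by positivity)
    have : (k : ℝ) ≤ l := by exact_mod_cast hkl
    linarith
  have hγ' : c < volume (O ψ N M 0 γ) := hp
  rw [← hU, hmono.measure_iUnion, lt_iSup_iff] at hγ'
  obtain ⟨k, hk⟩ := hγ'
  have hε : 0 < 1 / ((k : ℝ) + 1) := by positivity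
  have h1 : ∀ᶠ p : (ℕ → ℝ) × ℝ in 𝓝 (ψ, γ), |γ - p.2| < 1 / ((k : ℝ) + 1) / 2 := by
    have hc : ContinuousAt (fun p : (ℕ → ℝ) × ℝ => |γ - p.2|) (ψ, γ) := by fun_prop
    refine Tendsto.eventually_lt_const ?_ hc
    simp only [sub_self, abs_zero]
    positivity
  have h2 : ∀ᶠ p : (ℕ → ℝ) × ℝ in 𝓝 (ψ, γ), ∀ q ∈ Finset.range M,
      ψ q - 1 / ((k : ℝ) + 1) / 2 < p.1 q := by
    rw [Filter.eventually_all_finset]
    intro q _
    have hc : ContinuousAt (fun p : (ℕ → ℝ) × ℝ => p.1 q) (ψ, γ) := by fun_prop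
    refine Tendsto.eventually_const_lt ?_ hc
    simp only
    linarith [half_pos hε]
  filter_upwards [h1, h2] with p hp1 hp2
  exact hk.trans_le (measure_mono (O_shift hp1.le fun q hq => (hp2 q hq).le))

/-- the dense Gδ set of shifts -/
def G (ψ : ℕ → ℝ) : Set ℝ :=
  ⋂ N : ℕ, ⋂ k : ℕ, ⋃ M : ℕ, {γ : ℝ | 1 - ENNReal.ofReal (1 / ((k : ℝ) + 1)) < volume (O ψ N M 0 γ)}

theorem tail_eq (ψ : ℕ → ℝ) (N : ℕ) (γ : ℝ) :
    volume (⋃ M : ℕ, O ψ N M 0 γ) = ⨆ M : ℕ, volume (O ψ N M 0 γ) := by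
  have hmono : Monotone fun M : ℕ => O ψ N M 0 γ := fun _ _ h => O_mono_M h
  exact hmono.measure_iUnion

theorem null_orbit (γ : UnitAddCircle) : volume {y : UnitAddCircle | ∃ q : ℕ, 0 < q ∧ q • y = γ} = 0 := by
  have h : {y : UnitAddCircle | ∃ q : ℕ, 0 < q ∧ q • y = γ} = ⋃ q : ℕ, {y | 0 < q ∧ q • y = γ} := by
    ext y; simp
  rw [h]
  refine measure_iUnion_null fun q => ?_
  rcases Nat.eq_zero_or_pos q with rfl | hq
  · simp
  · have hqmp : Measure.QuasiMeasurePreserving (fun y : UnitAddCircle => q • y) volume volume := by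
      have h5 := (MeasureTheory.Measure.measurePreserving_zsmul (volume : Measure UnitAddCircle)
        (n := (q : ℤ)) (by exact_mod_cast hq.ne')).quasiMeasurePreserving
      simpa only [natCast_zsmul] using h5
    have h2 : {y : UnitAddCircle | 0 < q ∧ q • y = γ} ⊆ (fun y : UnitAddCircle => q • y) ⁻¹' {γ} := by
      rintro y ⟨_, hy⟩
      exact hy
    refine measure_mono_null h2 (hqmp.preimage_null ?_)
    have h3 := AddCircle.volume_closedBall (T := (1 : ℝ)) (x := γ) 0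
    rw [closedBall_zero] at h3
    rw [h3]
    simp

theorem rat_mem (ψ : ℕ → ℝ) (hψ : ∀ q, 0 ≤ ψ q)
    (hdiv : ¬ Summable (fun q : ℕ => (Nat.totient q : ℝ) * ψ q / (q : ℝ))) (γ : ℚ) : (γ : ℝ) ∈ G ψ := by
  have hdiv' : ¬ Summable (fun q : ℕ => (Nat.totient q : ℝ) * (ψ q / 2) / (q : ℝ)) := by
    intro hs
    apply hdiv
    refine (hs.mul_left 2).congr fun q => ?_
    ring
  have hfull := rational_full γ (fun q => div_nonneg (hψ q) zero_le_two) hdiv'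
  have hone : volume (L ((γ : ℝ) : UnitAddCircle) fun q => ψ q / 2) = 1 := by
    rw [measure_congr hfull, UnitAddCircle.measure_univ]
  refine mem_iInter.2 fun N => mem_iInter.2 fun k => ?_
  have hsub : (L ((γ : ℝ) : UnitAddCircle) fun q => ψ q / 2) ⊆ (⋃ M : ℕ, O ψ N M 0 γ) ∪ {y : UnitAddCircle | ∃ q : ℕ, 0 < q ∧ q • y = ((γ : ℝ) : UnitAddCircle)} := by
    intro y hy
    by_cases hc : ∃ q : ℕ, 0 < q ∧ q • y = ((γ : ℝ) : UnitAddCircle)
    · exact Or.inr hc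
    · left
      obtain ⟨q, ⟨hq, h1⟩, hqN⟩ := (hy.and_eventually (eventually_ge_atTop N)).exists
      refine mem_iUnion.2 ⟨q + 1, q, hqN, q.lt_succ_self, hq, ?_⟩
      have h2 : 0 < ‖q • y - ((γ : ℝ) : UnitAddCircle)‖ := by
        rw [norm_pos_iff, sub_ne_zero]
        exact fun h => hc ⟨q, hq, h⟩
      have h3 : ‖q • y - ((γ : ℝ) : UnitAddCircle)‖ ≤ ψ q / 2 := h1
      linarith
  have h1 : 1 ≤ volume (⋃ M : ℕ, O ψ N M 0 γ) := by
    calc 1 = volume (L ((γ : ℝ) : UnitAddCircle) fun q => ψ q / 2) := hone.symm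
      _ ≤ volume (⋃ M : ℕ, O ψ N M 0 γ) + volume {y : UnitAddCircle | ∃ q : ℕ, 0 < q ∧ q • y = ((γ : ℝ) : UnitAddCircle)} :=
        (measure_mono hsub).trans (measure_union_le _ _)
      _ = volume (⋃ M : ℕ, O ψ N M 0 γ) := by rw [null_orbit, add_zero]
  have h2 : 1 - ENNReal.ofReal (1 / ((k : ℝ) + 1)) < ⨆ M : ℕ, volume (O ψ N M 0 γ) := by
    rw [← tail_eq]
    refine lt_of_lt_of_le ?_ h1
    refine ENNReal.sub_lt_self ENNReal.one_ne_top one_ne_zero ?_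
    rw [Ne, ENNReal.ofReal_eq_zero, not_le]
    positivity
  obtain ⟨M, hM⟩ := lt_iSup_iff.1 h2
  exact mem_iUnion.2 ⟨M, hM⟩

theorem G_full {ψ : ℕ → ℝ} {γ : ℝ} (h : γ ∈ G ψ) : L γ ψ =ᵐ[volume] univ := by
  rw [ae_eq_univ]
  have hT : ∀ N : ℕ, volume (⋃ M : ℕ, O ψ N M 0 γ)ᶜ = 0 := by
    intro N
    have hmeas : MeasurableSet (⋃ M : ℕ, O ψ N M 0 γ) := by
      refine (isOpen_iUnion fun M => ?_).measurableSet
      have : O ψ N M 0 γ = ⋃ q : ℕ, ⋃ _ : N ≤ q ∧ q < M ∧ 0 < q,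
          {y : UnitAddCircle | ‖q • y - (γ : UnitAddCircle)‖ < ψ q} := by
        ext y
        simp only [O, sub_zero, Set.mem_ofPred_eq, mem_iUnion, exists_prop, and_assoc]
      rw [this]
      refine isOpen_iUnion fun q => isOpen_iUnion fun _ => ?_
      exact isOpen_lt (by fun_prop) continuous_const
    rw [measure_compl hmeas (measure_ne_top _ _), UnitAddCircle.measure_univ]
    refine tsub_eq_zero_of_le ?_
    refine ENNReal.le_of_forall_pos_le_add fun ε hε _ => ?_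
    obtain ⟨k, hk⟩ := exists_nat_one_div_lt (show (0 : ℝ) < (ε : ℝ) by exact_mod_cast hε)
    obtain ⟨M, hM⟩ := mem_iUnion.1 (mem_iInter.1 (mem_iInter.1 h N) k)
    have h1 : volume (O ψ N M 0 γ) ≤ volume (⋃ M : ℕ, O ψ N M 0 γ) := measure_mono (subset_iUnion (fun M => O ψ N M 0 γ) M)
    have h2 : (1 : ENNReal) ≤ volume (O ψ N M 0 γ) + ENNReal.ofReal (1 / ((k : ℝ) + 1)) :=
      tsub_le_iff_right.1 (le_of_lt hM)
    have h3 : ENNReal.ofReal (1 / ((k : ℝ) + 1)) ≤ ε := by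
      rw [← ENNReal.ofReal_coe_nnreal]
      exact ENNReal.ofReal_le_ofReal hk.le
    exact h2.trans (add_le_add h1 h3)
  have hsub : (L γ ψ)ᶜ ⊆ ⋃ N : ℕ, (⋃ M : ℕ, O ψ N M 0 γ)ᶜ := by
    intro y hy
    by_contra hc
    apply hy
    refine frequently_atTop.2 fun N => ?_
    have h0 : y ∈ ⋃ M : ℕ, O ψ N M 0 γ := by
      by_contra h0
      exact hc (mem_iUnion.2 ⟨N, h0⟩)
    obtain ⟨M, q, h1, h2, h3, h4⟩ := mem_iUnion.1 h0
    exact ⟨q, h1, h3, by linarith⟩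
  exact measure_mono_null hsub (measure_iUnion_null hT)

theorem O_mono_N {ψ : ℕ → ℝ} {N N' M : ℕ} {ε γ : ℝ} (h : N ≤ N') : O ψ N' M ε γ ⊆ O ψ N M ε γ := by
  rintro y ⟨q, h1, h2, h3, h4⟩
  exact ⟨q, h.trans h1, h2, h3, h4⟩

theorem O_period {ψ : ℕ → ℝ} {N M : ℕ} {ε γ : ℝ} (m : ℤ) : O ψ N M ε (γ - m) = O ψ N M ε γ := by
  have h : ((γ - m : ℝ) : UnitAddCircle) = (γ : UnitAddCircle) := by
    rw [AddCircle.coe_sub, coe_int, sub_zero]
  unfold O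
  rw [h]

/-- a compact set of functions `ψ` whose partial sums are at least `F - n` from `n` on -/
def K (F : ℕ → ℝ) (n : ℕ) : Set (ℕ → ℝ) :=
  {ψ | (∀ q, ψ q ∈ Icc (0 : ℝ) 1) ∧
    ∀ N, n ≤ N → F N - n ≤ ∑ q ∈ Finset.range N, (Nat.totient q : ℝ) * ψ q / (q : ℝ)}

theorem K_compact (F : ℕ → ℝ) (n : ℕ) : IsCompact (K F n) := by
  have h1 : IsCompact (Set.pi Set.univ fun _ : ℕ => Icc (0 : ℝ) 1) :=
    isCompact_univ_pi fun _ => isCompact_Icc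
  refine h1.of_isClosed_subset ?_ (fun ψ h q _ => h.1 q)
  have h2 : K F n = (⋂ q : ℕ, {ψ : ℕ → ℝ | ψ q ∈ Icc (0 : ℝ) 1}) ∩ ⋂ N : ℕ, ⋂ _ : n ≤ N,
      {ψ : ℕ → ℝ | F N - n ≤ ∑ q ∈ Finset.range N, (Nat.totient q : ℝ) * ψ q / (q : ℝ)} := by
    ext ψ
    constructor
    · rintro ⟨h3, h4⟩
      exact ⟨mem_iInter.2 h3, mem_iInter₂.2 h4⟩
    · rintro ⟨h3, h4⟩
      exact ⟨fun q => mem_iInter.1 h3 q, fun N hN => mem_iInter₂.1 h4 N hN⟩
  rw [h2]
  refine (isClosed_iInter fun q => ?_).inter (isClosed_iInter fun N => isClosed_iInter fun _ => ?_)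
  · exact isClosed_Icc.preimage (continuous_apply q)
  · exact isClosed_le continuous_const (by fun_prop)

theorem K_div {F : ℕ → ℝ} (hF : Tendsto F atTop atTop) {n : ℕ} {ψ : ℕ → ℝ} (h : ψ ∈ K F n) :
    ¬ Summable (fun q : ℕ => (Nat.totient q : ℝ) * ψ q / (q : ℝ)) := by
  intro hs
  obtain ⟨N, hN1, hN2⟩ := ((hF.eventually_gt_atTop
    ((n : ℝ) + ∑' q : ℕ, (Nat.totient q : ℝ) * ψ q / (q : ℝ))).and (eventually_ge_atTop n)).exists
  have h1 := h.2 N hN2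
  have h2 := hs.sum_le_tsum (Finset.range N) fun q _ =>
    div_nonneg (mul_nonneg (Nat.cast_nonneg _) (h.1 q).1) (Nat.cast_nonneg _)
  linarith

/-- shifts that work at the levels `N`, `k` for all functions in `K F n` -/
def H (F : ℕ → ℝ) (n N k : ℕ) : Set ℝ :=
  {γ | ∀ ψ ∈ K F n, ∃ M : ℕ, 1 - ENNReal.ofReal (1 / ((k : ℝ) + 1)) < volume (O ψ N M 0 γ)}

theorem H_open (F : ℕ → ℝ) (n N k : ℕ) : IsOpen (H F n N k) := by
  rw [isOpen_iff_mem_nhds]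
  intro γ hγ
  have hU : IsOpen (⋃ M : ℕ, {p : (ℕ → ℝ) × ℝ |
      1 - ENNReal.ofReal (1 / ((k : ℝ) + 1)) < volume (O p.1 N M 0 p.2)}) :=
    isOpen_iUnion fun M => O_open N M _
  have hsub : K F n ×ˢ ({γ} : Set ℝ) ⊆ ⋃ M : ℕ, {p : (ℕ → ℝ) × ℝ |
      1 - ENNReal.ofReal (1 / ((k : ℝ) + 1)) < volume (O p.1 N M 0 p.2)} := by
    rintro ⟨ψ, γ'⟩ ⟨h1, h2⟩
    have h3 : γ' = γ := h2
    subst h3
    obtain ⟨M, hM⟩ := hγ ψ h1
    exact mem_iUnion.2 ⟨M, hM⟩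
  obtain ⟨u, v, _, hv, hKu, hγv, huv⟩ := generalized_tube_lemma (K_compact F n) isCompact_singleton hU hsub
  refine mem_of_superset (hv.mem_nhds (hγv rfl)) ?_
  intro γ' h' ψ hψ
  obtain ⟨M, hM⟩ := mem_iUnion.1 (huv (show (ψ, γ') ∈ u ×ˢ v from ⟨hKu hψ, h'⟩))
  exact ⟨M, hM⟩

theorem rat_H {F : ℕ → ℝ} (hF : Tendsto F atTop atTop) (n N k : ℕ) (γ : ℚ) : (γ : ℝ) ∈ H F n N k := by
  intro ψ hψ
  have h2 := rat_mem ψ (fun q => (hψ.1 q).1) (K_div hF hψ) γ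
  obtain ⟨M, hM⟩ := mem_iUnion.1 (mem_iInter.1 (mem_iInter.1 h2 N) k)
  exact ⟨M, hM⟩

/-- a fine neighbourhood of the rational numbers with denominator `s` -/
theorem near {F : ℕ → ℝ} (hF : Tendsto F atTop atTop) (s : ℕ) :
    ∃ δ : ℝ, 0 < δ ∧ ∀ γ : ℝ, ∀ r : ℤ, 1 ≤ s → |γ - (r : ℝ) / s| < δ → ∀ n ≤ s, γ ∈ H F n s s := by
  rcases Nat.eq_zero_or_pos s with rfl | hs
  · exact ⟨1, one_pos, fun _ _ h => absurd h (by norm_num)⟩
  have hs' : (s : ℝ) ≠ 0 := by exact_mod_cast hs.ne'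
  have h1 : ∀ r : Fin s, ∃ δ : ℝ, 0 < δ ∧ ∀ γ : ℝ, |γ - ((r : ℕ) : ℝ) / s| < δ →
      ∀ n ≤ s, γ ∈ H F n s s := by
    intro r
    have hop : IsOpen (⋂ n ∈ Set.Iic s, H F n s s) :=
      (Set.finite_Iic s).isOpen_biInter fun n _ => H_open F n s s
    have hmem : (((((r : ℕ) : ℚ)) / s : ℚ) : ℝ) ∈ ⋂ n ∈ Set.Iic s, H F n s s :=
      mem_iInter₂.2 fun n _ => rat_H hF n s s _
    obtain ⟨δ, hδ, hb⟩ := Metric.isOpen_iff.1 hop _ hmem
    refine ⟨δ, hδ, fun γ hγ n hn => ?_⟩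
    have h3 : γ ∈ ball (((((r : ℕ) : ℚ)) / s : ℚ) : ℝ) δ := by
      rw [mem_ball, Real.dist_eq]
      push_cast
      exact hγ
    exact mem_iInter₂.1 (hb h3) n hn
  choose δ hδ0 hδ using h1
  have : Nonempty (Fin s) := ⟨⟨0, hs⟩⟩
  obtain ⟨r0, hr0⟩ := Finite.exists_min δ
  refine ⟨δ r0, hδ0 r0, fun γ r _ hγ n hn => ?_⟩
  have hq0 : (s : ℤ) ≠ 0 := by exact_mod_cast hs.ne'
  have hmod0 : 0 ≤ r % s := Int.emod_nonneg _ hq0
  have hmod1 : r % s < s := Int.emod_lt_of_pos _ (by exact_mod_cast hs)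
  have hdec : (s : ℤ) * (r / s) + r % s = r := Int.mul_ediv_add_emod r s
  have hlt : (r % s).toNat < s := by omega
  have hcast : (((r % s).toNat : ℕ) : ℝ) = ((r % s : ℤ) : ℝ) := by
    have : (((r % s).toNat : ℕ) : ℤ) = r % s := Int.toNat_of_nonneg hmod0
    exact_mod_cast congrArg (fun t : ℤ => (t : ℝ)) this
  have h3 : |(γ - ((r / s : ℤ) : ℝ)) - (((⟨(r % s).toNat, hlt⟩ : Fin s) : ℕ) : ℝ) / s| < δ ⟨(r % s).toNat, hlt⟩ := by
    refine lt_of_eq_of_lt ?_ (hγ.trans_le (hr0 _))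
    congr 1
    have h4 : (r : ℝ) = (s : ℝ) * ((r / s : ℤ) : ℝ) + ((r % s : ℤ) : ℝ) := by
      exact_mod_cast congrArg (fun t : ℤ => (t : ℝ)) hdec.symm
    simp only [hcast]
    rw [h4]
    field_simp
    ring
  intro ψ hψ
  obtain ⟨M, hM⟩ := hδ _ _ h3 n hn ψ hψ
  rw [O_period] at hM
  exact ⟨M, hM⟩

theorem H_mono {F : ℕ → ℝ} {n N k s : ℕ} {γ : ℝ} (hN : N ≤ s) (hk : k ≤ s) (h : γ ∈ H F n s s) :
    γ ∈ H F n N k := by
  intro ψ hψ
  obtain ⟨M, hM⟩ := h ψ hψ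
  refine ⟨M, ?_⟩
  have hk' : (k : ℝ) ≤ s := by exact_mod_cast hk
  have h1 : 1 - ENNReal.ofReal (1 / ((k : ℝ) + 1)) ≤ 1 - ENNReal.ofReal (1 / ((s : ℝ) + 1)) := by
    refine tsub_le_tsub_left (ENNReal.ofReal_le_ofReal ?_) _
    apply one_div_le_one_div_of_le (by positivity)
    linarith
  exact (h1.trans_lt hM).trans_le (measure_mono (O_mono_N hN))

/-- the shifts that work for all functions with rate of divergence `F` -/
def A (F : ℕ → ℝ) : Set ℝ := ⋂ n : ℕ, ⋂ N : ℕ, ⋂ k : ℕ, H F n N k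

theorem A_residual {F : ℕ → ℝ} (hF : Tendsto F atTop atTop) : A F ∈ residual ℝ := by
  have h1 : IsGδ (A F) :=
    .iInter fun n => .iInter fun N => .iInter fun k => (H_open F n N k).isGδ
  have h2 : DenseRange ((↑) : ℚ → ℝ) := Rat.denseRange_cast
  refine residual_of_dense_Gδ h1 (Dense.mono (range_subset_iff.2 fun γ => ?_) h2)
  exact mem_iInter.2 fun n => mem_iInter.2 fun N => mem_iInter.2 fun k => rat_H hF n N k γ

/-- every shift that is very well approximable by rational numbers, in terms of `F`, lies in `A F` -/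
theorem exists_theta {F : ℕ → ℝ} (hF : Tendsto F atTop atTop) :
    ∃ θ : ℕ → ℝ, (∀ s, 0 < θ s) ∧ ∀ γ : ℝ,
      (∃ᶠ s : ℕ in atTop, 1 ≤ s ∧ ∃ r : ℤ, |γ - (r : ℝ) / s| < θ s) → γ ∈ A F := by
  choose θ hθ0 hθ using near hF
  refine ⟨θ, hθ0, fun γ hγ => mem_iInter.2 fun n => mem_iInter.2 fun N => mem_iInter.2 fun k => ?_⟩
  obtain ⟨s, ⟨hs1, r, hr⟩, hs2⟩ := (hγ.and_eventually (eventually_ge_atTop (max n (max N k)))).exists
  exact H_mono (((le_max_left N k).trans (le_max_right n _)).trans hs2)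
    (((le_max_right N k).trans (le_max_right n _)).trans hs2)
    (hθ s γ r hs1 hr n ((le_max_left n _).trans hs2))

theorem A_full {F : ℕ → ℝ} {γ : ℝ} (h : γ ∈ A F) {ψ : ℕ → ℝ} (hψ : ∀ q, 0 ≤ ψ q)
    (hFψ : ∀ᶠ N in atTop, F N ≤ ∑ q ∈ Finset.range N, (Nat.totient q : ℝ) * ψ q / (q : ℝ)) :
    volume (LS γ ψ Finset.range) = 1 := by
  rw [vol_LS hψ]
  by_cases hbig : ∃ᶠ q : ℕ in atTop, 1 / 2 ≤ ψ q
  · rw [L_univ hbig, UnitAddCircle.measure_univ]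
  · rw [not_frequently, eventually_atTop] at hbig
    obtain ⟨N1, hN1⟩ := hbig
    obtain ⟨N2, hN2⟩ := eventually_atTop.1 hFψ
    set c : ℝ := ∑ q ∈ Finset.range N1, (Nat.totient q : ℝ) * ψ q / (q : ℝ) with hc
    obtain ⟨N3, hN3⟩ := exists_nat_ge c
    have hK : (fun q => min (ψ q) 1) ∈ K F (max N1 (max N2 N3)) := by
      refine ⟨fun q => ⟨le_min (hψ q) zero_le_one, min_le_right _ _⟩, fun N hN => ?_⟩
      have e1 : N1 ≤ N := (le_max_left _ _).trans hN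
      have e2 : N2 ≤ N := ((le_max_left _ _).trans (le_max_right _ _)).trans hN
      have e3 : (N3 : ℝ) ≤ ((max N1 (max N2 N3) : ℕ) : ℝ) := by
        exact_mod_cast (le_max_right N2 N3).trans (le_max_right _ _)
      have h1 := hN2 N e2
      rw [← Finset.sum_range_add_sum_Ico _ e1] at h1 ⊢
      have h2 : ∑ q ∈ Finset.Ico N1 N, (Nat.totient q : ℝ) * min (ψ q) 1 / (q : ℝ) =
          ∑ q ∈ Finset.Ico N1 N, (Nat.totient q : ℝ) * ψ q / (q : ℝ) := by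
        refine Finset.sum_congr rfl fun q hq => ?_
        have h3 : ψ q < 1 / 2 := not_le.1 (hN1 q (Finset.mem_Ico.1 hq).1)
        rw [min_eq_left (by linarith)]
      have h4 : 0 ≤ ∑ q ∈ Finset.range N1, (Nat.totient q : ℝ) * min (ψ q) 1 / (q : ℝ) :=
        Finset.sum_nonneg fun q _ => div_nonneg
          (mul_nonneg (Nat.cast_nonneg _) (le_min (hψ q) zero_le_one)) (Nat.cast_nonneg _)
      rw [h2]
      linarith
    have hG : γ ∈ G fun q => min (ψ q) 1 := by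
      refine mem_iInter.2 fun N => mem_iInter.2 fun k => ?_
      obtain ⟨M, hM⟩ := mem_iInter.1 (mem_iInter.1 (mem_iInter.1 h (max N1 (max N2 N3))) N) k _ hK
      exact mem_iUnion.2 ⟨M, hM⟩
    have hsub : L γ (fun q => min (ψ q) 1) ⊆ L γ ψ := by
      intro y hy
      exact Frequently.mono hy fun q hq => ⟨hq.1, hq.2.trans (min_le_left _ _)⟩
    refine le_antisymm ?_ ?_
    · calc volume (L γ ψ) ≤ volume (univ : Set UnitAddCircle) := measure_mono (subset_univ _)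
        _ = 1 := UnitAddCircle.measure_univ
    · calc (1 : ENNReal) = volume (L γ fun q => min (ψ q) 1) := by
            rw [measure_congr (G_full hG), UnitAddCircle.measure_univ]
        _ ≤ volume (L γ ψ) := measure_mono hsub

end Pool.Agent.H685IDS
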